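import Pool.Agent.H93.RG.Defs

/-!
# FG for blocks of size `r`: parameters (proof, with an explicit form)
-/

set_option autoImplicit false
set_option linter.unusedSectionVars false

namespace Pool.Agent.H81.RG

open Finset
open Pool.Agent.H93.RG

theorem step {r w x : ℕ} (hr : 2 ≤ r) (hw : 1 ≤ w) :
    4 * w * (r * (2 ^ (r + 2) * w * x ^ (r * r)) + x) ≤ (4 * w * x) ^ (r * r) := by
  have hrr : r + 2 ≤ r * r := by nlinarith
  rcases Nat.eq_zero_or_pos x with h0 | hx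
  · subst h0
    rw [zero_pow (by omega)]
    simp
  have h1 : x ≤ w * x ^ (r * r) := by
    calc x ≤ x ^ (r * r) := Nat.le_self_pow (by omega) _
      _ = 1 * x ^ (r * r) := (one_mul _).symm
      _ ≤ w * x ^ (r * r) := Nat.mul_le_mul_right _ hw
  have h2 : r * 2 ^ (r + 2) + 1 ≤ 2 ^ (2 * r + 2) := by
    have h3 : r + 1 ≤ 2 ^ r := Nat.lt_two_pow_self
    have h4 : 1 ≤ 2 ^ (r + 2) := Nat.one_le_two_pow
    calc r * 2 ^ (r + 2) + 1 ≤ r * 2 ^ (r + 2) + 2 ^ (r + 2) := by omega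
      _ = (r + 1) * 2 ^ (r + 2) := by ring
      _ ≤ 2 ^ r * 2 ^ (r + 2) := Nat.mul_le_mul_right _ h3
      _ = 2 ^ (2 * r + 2) := by rw [← pow_add]; congr 1; ring
  have h5 : 4 * (r * 2 ^ (r + 2) + 1) ≤ 4 ^ (r * r) := by
    calc 4 * (r * 2 ^ (r + 2) + 1) ≤ 4 * 2 ^ (2 * r + 2) := Nat.mul_le_mul_left _ h2
      _ = 2 ^ (2 * (r + 2)) := by
        have : 2 * (r + 2) = (2 * r + 2) + 2 := by ring
        rw [this, pow_add 2 (2 * r + 2) 2]
        ring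
      _ ≤ 2 ^ (2 * (r * r)) := Nat.pow_le_pow_right (by norm_num) (Nat.mul_le_mul_left _ hrr)
      _ = 4 ^ (r * r) := by rw [pow_mul]; norm_num
  have h6 : w * w ≤ w ^ (r * r) := by
    calc w * w = w ^ 2 := (sq w).symm
      _ ≤ w ^ (r * r) := Nat.pow_le_pow_right hw (by omega)
  calc 4 * w * (r * (2 ^ (r + 2) * w * x ^ (r * r)) + x)
      ≤ 4 * w * (r * (2 ^ (r + 2) * w * x ^ (r * r)) + w * x ^ (r * r)) := by
        exact Nat.mul_le_mul_left _ (Nat.add_le_add_left h1 _)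
    _ = (4 * (r * 2 ^ (r + 2) + 1)) * (w * w) * x ^ (r * r) := by ring
    _ ≤ 4 ^ (r * r) * w ^ (r * r) * x ^ (r * r) := Nat.mul_le_mul_right _ (Nat.mul_le_mul h5 h6)
    _ = (4 * w * x) ^ (r * r) := by rw [mul_pow, mul_pow]

theorem lev_le_pow {r w L : ℕ} (hr : 2 ≤ r) (hw : 1 ≤ w) :
    ∀ i, 4 * w * lev r w L i ≤ (4 * w * L) ^ ((r * r) ^ i)
  | 0 => by simp [lev]
  | i + 1 => by
    calc 4 * w * lev r w L (i + 1) = 4 * w * (r * (2 ^ (r + 2) * w * lev r w L i ^ (r * r)) + lev r w L i) := rfl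
      _ ≤ (4 * w * lev r w L i) ^ (r * r) := step hr hw
      _ ≤ ((4 * w * L) ^ ((r * r) ^ i)) ^ (r * r) := Nat.pow_le_pow_left (lev_le_pow hr hw i) _
      _ = (4 * w * L) ^ ((r * r) ^ (i + 1)) := by rw [← pow_mul, ← pow_succ]

theorem base {r k l m t q c : ℕ} (hr : 2 ≤ r) (hm : 2 ≤ m) (ht : 1 ≤ t) (hc : c < r)
    (hq : q = r * (1000 * r * (k + 3) * ((t * m) ^ l * (2 * t + 2) ^ 2)) + 1) :
    4 * (2 * t + 1) * (q * (q - 1) * (r - 1) + c) ≤ ((k + 3) * (r * m * t) ^ (l + 11)) ^ 2 := by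
  have hY : 4 ≤ r * m * t := by
    calc 4 = 2 * 2 * 1 := by norm_num
      _ ≤ r * m * t := Nat.mul_le_mul (Nat.mul_le_mul hr hm) ht
  have hT : 1 ≤ (t * m) ^ l := Nat.one_le_pow _ _ (Nat.mul_pos ht (by omega))
  have h1 : (2 * t + 2) ^ 2 ≤ 16 * t ^ 2 := by
    calc (2 * t + 2) ^ 2 ≤ (4 * t) ^ 2 := Nat.pow_le_pow_left (by omega) 2
      _ = 16 * t ^ 2 := by ring
  have h2 : q ≤ 32000 * r ^ 2 * (k + 3) * ((t * m) ^ l * t ^ 2) := by
    have h3 : 1 ≤ r ^ 2 * (k + 3) * ((t * m) ^ l * t ^ 2) := by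
      apply Nat.one_le_iff_ne_zero.2
      have : 0 < r := by omega
      have : 0 < t := ht
      positivity
    calc q = 1000 * (r ^ 2 * (k + 3) * ((t * m) ^ l * (2 * t + 2) ^ 2)) + 1 := by rw [hq]; ring
      _ ≤ 1000 * (r ^ 2 * (k + 3) * ((t * m) ^ l * (16 * t ^ 2))) + 1 :=
        Nat.add_le_add_right (Nat.mul_le_mul_left _ (Nat.mul_le_mul_left _ (Nat.mul_le_mul_left _ h1))) _
      _ = 16000 * (r ^ 2 * (k + 3) * ((t * m) ^ l * t ^ 2)) + 1 := by ring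
      _ ≤ 32000 * (r ^ 2 * (k + 3) * ((t * m) ^ l * t ^ 2)) := by omega
      _ = 32000 * r ^ 2 * (k + 3) * ((t * m) ^ l * t ^ 2) := by ring
  have h4 : q * (q - 1) * (r - 1) + c ≤ r * q ^ 2 := by
    have hq1 : 1 ≤ q := by omega
    obtain ⟨n, rfl⟩ : ∃ n, q = n + 1 := ⟨q - 1, by omega⟩
    obtain ⟨s, rfl⟩ : ∃ s, r = s + 1 := ⟨r - 1, by omega⟩
    simp only [Nat.add_sub_cancel]
    have h5 : c ≤ s := by omega
    calc (n + 1) * n * s + c ≤ (n + 1) * n * s + s := by omega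
      _ ≤ (s + 1) * (n + 1) ^ 2 := by nlinarith
  have h6 : r * t ≤ r * m * t := by
    calc r * t = r * 1 * t := by ring
      _ ≤ r * m * t := Nat.mul_le_mul_right _ (Nat.mul_le_mul_left _ (by omega))
  have h7 : t * m ≤ r * m * t := by
    calc t * m = 1 * m * t := by ring
      _ ≤ r * m * t := Nat.mul_le_mul_right _ (Nat.mul_le_mul_right _ (by omega))
  calc 4 * (2 * t + 1) * (q * (q - 1) * (r - 1) + c)
      ≤ 4 * (3 * t) * (r * (32000 * r ^ 2 * (k + 3) * ((t * m) ^ l * t ^ 2)) ^ 2) := by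
        refine Nat.mul_le_mul (Nat.mul_le_mul_left _ (by omega)) (h4.trans ?_)
        exact Nat.mul_le_mul_left _ (Nat.pow_le_pow_left h2 2)
    _ = 12288000000 * (r * t) ^ 5 * (k + 3) ^ 2 * ((t * m) ^ l) ^ 2 := by ring
    _ ≤ (r * m * t) ^ 17 * (r * m * t) ^ 5 * (k + 3) ^ 2 * ((r * m * t) ^ l) ^ 2 := by
        refine Nat.mul_le_mul (Nat.mul_le_mul_right _ (Nat.mul_le_mul ?_ (Nat.pow_le_pow_left h6 5)))
          (Nat.pow_le_pow_left (Nat.pow_le_pow_left h7 l) 2)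
        calc 12288000000 ≤ 4 ^ 17 := by norm_num
          _ ≤ (r * m * t) ^ 17 := Nat.pow_le_pow_left hY 17
    _ = ((k + 3) * (r * m * t) ^ (l + 11)) ^ 2 := by
        rw [pow_add (r * m * t) l 11]
        ring

/-- the first point set, explicit form -/
theorem num_explicit {r d k l m t q c : ℕ} (hr : 2 ≤ r) (hm : 2 ≤ m) (ht : 1 ≤ t) (hc : c < r)
    (hq : q = r * (1000 * r * (k + 3) * ((t * m) ^ l * (2 * t + 2) ^ 2)) + 1) :
    lev r (2 * t + 1) (q * (q - 1) * (r - 1) + c) d ≤ ((k + 3) * (r * m * t) ^ (l + 11)) ^ (2 * r ^ (2 * d)) := by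
  have h1 := lev_le_pow (L := q * (q - 1) * (r - 1) + c) hr (show 1 ≤ 2 * t + 1 by omega) d
  have h2 : lev r (2 * t + 1) (q * (q - 1) * (r - 1) + c) d ≤
      4 * (2 * t + 1) * lev r (2 * t + 1) (q * (q - 1) * (r - 1) + c) d :=
    Nat.le_mul_of_pos_left _ (by omega)
  calc lev r (2 * t + 1) (q * (q - 1) * (r - 1) + c) d
      ≤ (4 * (2 * t + 1) * (q * (q - 1) * (r - 1) + c)) ^ ((r * r) ^ d) := h2.trans h1
    _ ≤ (((k + 3) * (r * m * t) ^ (l + 11)) ^ 2) ^ ((r * r) ^ d) := Nat.pow_le_pow_left (base hr hm ht hc hq) _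
    _ = ((k + 3) * (r * m * t) ^ (l + 11)) ^ (2 * r ^ (2 * d)) := by
        rw [← pow_mul, ← sq, ← pow_mul]

/-- the first point set is polynomial in `m t` -/
theorem num (r d k l : ℕ) (hr : 2 ≤ r) : ∃ C : ℕ, ∀ m t q c : ℕ, 2 ≤ m → 1 ≤ t → c < r →
    q = r * (1000 * r * (k + 3) * ((t * m) ^ l * (2 * t + 2) ^ 2)) + 1 →
    lev r (2 * t + 1) (q * (q - 1) * (r - 1) + c) d ≤ (m * t) ^ C := by
  refine ⟨((k + 3) + (r + 1) * (l + 11)) * (2 * r ^ (2 * d)), fun m t q c hm ht hc hq => ?_⟩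
  have hX : 2 ≤ m * t := by nlinarith
  have h1 : k + 3 ≤ (m * t) ^ (k + 3) :=
    (Nat.lt_two_pow_self.le).trans (Nat.pow_le_pow_left hX _)
  have h2 : r ≤ (m * t) ^ r := (Nat.lt_two_pow_self.le).trans (Nat.pow_le_pow_left hX _)
  have h3 : r * m * t ≤ (m * t) ^ (r + 1) := by
    calc r * m * t = r * (m * t) := by ring
      _ ≤ (m * t) ^ r * (m * t) := Nat.mul_le_mul_right _ h2
      _ = (m * t) ^ (r + 1) := (pow_succ _ _).symm
  refine (num_explicit hr hm ht hc hq).trans ?_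
  calc ((k + 3) * (r * m * t) ^ (l + 11)) ^ (2 * r ^ (2 * d))
      ≤ ((m * t) ^ (k + 3) * ((m * t) ^ (r + 1)) ^ (l + 11)) ^ (2 * r ^ (2 * d)) :=
        Nat.pow_le_pow_left (Nat.mul_le_mul h1 (Nat.pow_le_pow_left h3 _)) _
    _ = (m * t) ^ (((k + 3) + (r + 1) * (l + 11)) * (2 * r ^ (2 * d))) := by
        rw [← pow_mul, ← pow_add, ← pow_mul]

end Pool.Agent.H81.RG
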